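import Pool.Agent.Helper79.GT.All
import Pool.Agent.Helper79.GU.All

/-!
# MP_c2d095_lc: superko Go is in PSPACE if all but `m` removals of several stones are decisive

Definitions: `Pool/Agent/Helper19/SK/Defs.lean` (`Pos`, `play`), `Pool/Agent/Helper79/GS/Defs.lean` (`grid`, `Encl`, `area`),
`Pool/Agent/Helper79/GS/Defs3.lean` (`PSPACE`), `Pool/Agent/Helper79/GS/Defs4.lean` (`ltr`, `bword`), `Pool/Agent/Helper79/GT/Defs.lean`
(the game `BWg`, superko `okk`, undeclared placements `und`, `Few`, `Sound`, `goG`, words `inst`, `dcl`),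
`Pool/Agent/Helper79/GU/Defs.lean` (`Att`, `Safe`, `Dec`), `Pool/Agent/Helper73/DC/Defs.lean` (Turing machines).
-/

set_option autoImplicit false

namespace Pool.Agent.Results.MP_c2d095_lc.DecisiveCaptures

open Pool.Agent.Helper19.SK Pool.Agent.Helper79.GS Pool.Agent.Helper79.GT Pool.Agent.Helper79.GU

theorem result :
    (∀ (sk tc : Bool) (D : Bool → Set (List (Fin 5))), (∀ i, D i ∈ PSPACE (Fin 5)) →
      ∃ L ∈ PSPACE (Fin 5),
        ∀ (n m kb kw : ℕ) (c : Bool) (P : Pos (Fin n × Fin n)) (H : List (Bool × Pos (Fin n × Fin n))), 1 ≤ n →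
          Few (und (goG (grid n) tc) (dcl D (inst n m kb kw c P H))) m P →
          Sound (goG (grid n) tc) sk (dcl D (inst n m kb kw c P H)) {x | x ∈ H} c P ((kb : ℤ) - kw) →
          (inst n m kb kw c P H ∈ L ↔
            BWg (goG (grid n) tc) sk (insert (c, P) {x | x ∈ H}) false c P ((kb : ℤ) - kw))) ∧
    (∀ sk : Bool, ∃ L ∈ PSPACE (Fin 5),
      ∀ (n m kb kw : ℕ) (c : Bool) (P : Pos (Fin n × Fin n)) (H : List (Bool × Pos (Fin n × Fin n))), 1 ≤ n →
        Few (und (goG (grid n) false) (Dec (goG (grid n) false))) m P →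
        (∀ c', ¬ Safe (goG (grid n) false) c' P) → (∀ x ∈ H, ∀ c', ¬ Safe (goG (grid n) false) c' x.2) →
        (inst n m kb kw c P H ∈ L ↔
          BWg (goG (grid n) false) sk (insert (c, P) {x | x ∈ H}) false c P ((kb : ℤ) - kw))) :=
  ⟨fun sk tc D hD => gMAI sk tc D hD, gEXP⟩

end Pool.Agent.Results.MP_c2d095_lc.DecisiveCaptures
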