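import Pool.Agent.Helper19.SK.Walk

/-!
# MP_c2d095: forced play in Go has only ko cycles

Go on an arbitrary finite simple graph `G` (for example the `n × n` grid), suicide allowed, chains of the opponent without
liberties are removed first. Consider a closed sequence of positions, given by placements of Black and White in any order, with
passes interspersed. If EVERY White placement captures at least one stone (nothing is assumed about the placements of Black) and
Black does not make more placements than White (for example if the moves alternate and the closed sequence has even length), then
both make the same number of placements and every placement is a ko capture: it removes exactly one stone, on a neighbour `u` of
the new stone; all neighbours of the new stone belong to the opponent, all neighbours of `u` belong to the capturing colour, and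
the opponent gets the previous position back by playing on `u` at once.

So all cycles of forced play (Black threatens, White has to parry by a capture) are reversible. A cycle of states (position and
player to move) without passes, containing a placement which is not a ko capture, needs placements without a capture of both
colours.

Proof. Counting the Black stones shows that each White placement captures exactly one stone and that Black makes no suicide. Count
the empty points all of whose neighbours are White: a White placement creates at least one (the captured point) and destroys none,
a Black placement destroys at most one, and only if it is made on such a point. So every Black placement is made on such a point,
and captures. Now the situation is symmetric in the colours.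
-/

set_option autoImplicit false

namespace Pool.Agent.Results.MP_c2d095_lc.ForcedCycles

open Pool.Agent.Helper19.SK

theorem result :
    ∀ (V : Type) [Finite V] (G : SimpleGraph V) (n : ℕ) (P : ℕ → Pos V) (c : ℕ → Bool) (m : ℕ → Option V),
      Closed G n P c m →
      ({i | i < n ∧ m i ≠ none ∧ c i = true} : Set ℕ).ncard ≤ ({i | i < n ∧ m i ≠ none ∧ c i = false} : Set ℕ).ncard →
      (∀ i < n, m i ≠ none → c i = false → ∃ v, P i v = some true ∧ P (i + 1) v = none) →
        ({i | i < n ∧ m i ≠ none ∧ c i = true} : Set ℕ).ncard = ({i | i < n ∧ m i ≠ none ∧ c i = false} : Set ℕ).ncard ∧
          ∀ i < n, ∀ e, m i = some e → KoCapture G (P i) (c i) e := by
  intro V _ G n P c m h hb hcap
  exact main h hb hcap

end Pool.Agent.Results.MP_c2d095_lc.ForcedCycles
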