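import Pool.Agent.Helper19.SK.Walk

/-!
# MP_c2d095: forced play with captures of one stone under positional superko is solved by matchings

Go on an arbitrary finite simple graph `G`, suicide allowed, positional superko: a placement is illegal if the position which it
produces has already occurred; `H₀` is an arbitrary set of positions which have already occurred. `A` is any set of allowed
placements such that every allowed White placement captures exactly one stone and such that an allowed ko capture may be taken
back (for example: Black may play anything, White must answer every move by a capture of one stone). Nobody passes, and a player
without a legal allowed placement loses (Black threatens at every move; White loses if he does not parry).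

Let `W` be the undirected graph of the ko captures on the states (position, player to move). There is a set `B` of states (the
states from which a move which is not a ko capture wins) which satisfies the recursion `ExitSet`, and for every such `B` the
player to move in `s` wins if and only if `s ∈ B` or `s` is covered by all maximum matchings of `W` without `B` and without the
states whose position is in `H₀`. So the winner is computed in time polynomial in the number of positions.

The proof uses the theorem of `ForcedCycles.lean`, and the fact that in such a play a position does not come back with the other
player to move: by counting Black stones this would need a suicide of a single stone, which repeats the position at once.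
-/

set_option autoImplicit false

namespace Pool.Agent.Results.MP_c2d095_lc.PositionalSuperko

open Pool.Agent.Helper19.SK

theorem result :
    ∀ (V : Type) [Finite V] (G : SimpleGraph V) (A : Pos V → Bool → Option V → Prop), ForcedOne G A →
      ∀ H₀ : Set (Pos V), (∃ B, ExitSet (MvP G A) (KoGraph G A) Prod.fst H₀ B) ∧
        ∀ B, ExitSet (MvP G A) (KoGraph G A) Prod.fst H₀ B → ∀ s : State V, s.1 ∉ H₀ →
          (Wins (MvP G A) Prod.fst (insert s.1 H₀) s ↔ s ∈ B ∨ Essential (KoGraph G A) (B ∪ Prod.fst ⁻¹' H₀) s) := by
  intro V _ G A hA H₀
  exact solution_positional hA H₀

end Pool.Agent.Results.MP_c2d095_lc.PositionalSuperko
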