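import Pool.Agent.Helper19.SK.Walk

/-!
# MP_c2d095: forced play under situational superko is solved by matchings

Go on an arbitrary finite simple graph `G`, suicide allowed. States: a position and the player to move. `A` is any set of allowed
moves such that White may not pass and may only play captures, and such that an allowed ko capture may be taken back (for example:
Black may do anything, White must answer every move by a capture). Rule: no state (position and player to move) may be repeated
(situational superko); `H₀` is an arbitrary set of states which have already occurred. A player without a legal allowed move loses
(Black threatens at every move; White loses if he does not parry).

Let `W` be the undirected graph of the ko captures. There is a set `B` of states (the states from which a move which is not a ko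
capture wins) which satisfies the recursion `ExitSet`, and for every such `B` the player to move in `s` wins if and only if
`s ∈ B` or `s` is covered by all maximum matchings of `W - (B ∪ H₀)`.

So the winner is computed in time polynomial in the number of states. The proof uses the theorem of `ForcedCycles.lean`: a move of
a cycle is a ko capture (in particular passes of Black are not in cycles), so the moves which are not ko captures lead to states
from which the old states cannot be reached.
-/

set_option autoImplicit false

namespace Pool.Agent.Results.MP_c2d095_lc.SituationalSuperko

open Pool.Agent.Helper19.SK

theorem result :
    ∀ (V : Type) [Finite V] (G : SimpleGraph V) (A : Pos V → Bool → Option V → Prop), Forced G A →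
      ∀ H₀ : Set (State V), (∃ B, ExitSet (Mv G A) (KoGraph G A) id H₀ B) ∧
        ∀ B, ExitSet (Mv G A) (KoGraph G A) id H₀ B → ∀ s : State V, s ∉ H₀ →
          (Wins (Mv G A) id (insert s H₀) s ↔ s ∈ B ∨ Essential (KoGraph G A) (B ∪ H₀) s) := by
  intro V _ G A hA H₀
  exact solution_situational hA H₀

end Pool.Agent.Results.MP_c2d095_lc.SituationalSuperko
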